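import Pool.Agent.Lib.MP_087ef2_pr.Defs

/-!
# Analytic part: the generating function, frozen iterations and interpolation of fixed points
-/

open MeasureTheory Filter Topology

namespace Pool.Agent.Lib.MP_087ef2_pr

variable {X : Type*}

/-- The monomial `z^f = ∏_y z(y)^{f(y)}`. -/
noncomputable def pw (z : X → ℝ) (f : X →₀ ℕ) : ℝ := f.prod fun y k => z y ^ k

/-- The vector `z` lies in `[0,1]^X`. -/
def Unit01 (z : X → ℝ) : Prop := ∀ x, 0 ≤ z x ∧ z x ≤ 1

lemma pw_zero (z : X → ℝ) : pw z 0 = 1 := by simp [pw]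

lemma pw_single (z : X → ℝ) (x : X) : pw z (Finsupp.single x 1) = z x := by
  simp [pw]

lemma pw_add (z : X → ℝ) (f g : X →₀ ℕ) : pw z (f + g) = pw z f * pw z g := by
  classical
  unfold pw
  exact Finsupp.prod_add_index' (fun _ => pow_zero _) (fun _ _ _ => pow_add _ _ _)

lemma pw_sum (z : X → ℝ) {ι : Type*} (s : Finset ι) (f : ι → X →₀ ℕ) :
    pw z (∑ i ∈ s, f i) = ∏ i ∈ s, pw z (f i) := by
  classical
  induction s using Finset.induction_on with
  | empty => simp [pw_zero]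
  | insert a s ha ih => rw [Finset.sum_insert ha, Finset.prod_insert ha, pw_add, ih]

lemma pw_nonneg {z : X → ℝ} (hz : Unit01 z) (f : X →₀ ℕ) : 0 ≤ pw z f :=
  Finset.prod_nonneg fun y _ => pow_nonneg (hz y).1 _

lemma pw_le_one {z : X → ℝ} (hz : Unit01 z) (f : X →₀ ℕ) : pw z f ≤ 1 :=
  Finset.prod_le_one (fun y _ => pow_nonneg (hz y).1 _)
    (fun y _ => pow_le_one₀ (hz y).1 (hz y).2)

lemma pw_mono {z w : X → ℝ} (hz : Unit01 z) (h : ∀ x, z x ≤ w x) (f : X →₀ ℕ) :
    pw z f ≤ pw w f :=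
  Finset.prod_le_prod (fun y _ => pow_nonneg (hz y).1 _)
    (fun y _ => pow_le_pow_left₀ (hz y).1 (h y) _)

lemma pw_tendsto {ι : Type*} {l : Filter ι} {w : ι → X → ℝ} {w0 : X → ℝ}
    (h : ∀ x, Tendsto (fun i => w i x) l (𝓝 (w0 x))) (f : X →₀ ℕ) :
    Tendsto (fun i => pw (w i) f) l (𝓝 (pw w0 f)) := by
  unfold pw Finsupp.prod
  exact tendsto_finsetProd _ fun y _ => (h y).pow _

lemma summable_pmf {α : Type*} (p : PMF α) : Summable fun a => (p a).toReal :=
  ENNReal.summable_toReal p.tsum_coe_ne_top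

lemma tsum_pmf {α : Type*} (p : PMF α) : ∑' a, (p a).toReal = 1 := by
  rw [← ENNReal.tsum_toReal_eq (fun a => p.apply_ne_top a), p.tsum_coe]
  simp

lemma genFun_eq (μ : X → PMF (X →₀ ℕ)) (z : X → ℝ) (x : X) :
    genFun μ z x = ∑' f : X →₀ ℕ, (μ x f).toReal * pw z f := rfl

lemma summable_gen (μ : X → PMF (X →₀ ℕ)) {z : X → ℝ} (hz : Unit01 z) (x : X) :
    Summable fun f : X →₀ ℕ => (μ x f).toReal * pw z f := by
  refine Summable.of_nonneg_of_le (fun f => ?_) (fun f => ?_) (summable_pmf (μ x))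
  · exact mul_nonneg ENNReal.toReal_nonneg (pw_nonneg hz f)
  · exact mul_le_of_le_one_right ENNReal.toReal_nonneg (pw_le_one hz f)

lemma genFun_nonneg (μ : X → PMF (X →₀ ℕ)) {z : X → ℝ} (hz : Unit01 z) (x : X) :
    0 ≤ genFun μ z x :=
  tsum_nonneg fun f => mul_nonneg ENNReal.toReal_nonneg (pw_nonneg hz f)

lemma genFun_le_one (μ : X → PMF (X →₀ ℕ)) {z : X → ℝ} (hz : Unit01 z) (x : X) :
    genFun μ z x ≤ 1 := by
  rw [← tsum_pmf (μ x)]
  exact (summable_gen μ hz x).tsum_le_tsum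
    (fun f => mul_le_of_le_one_right ENNReal.toReal_nonneg (pw_le_one hz f)) (summable_pmf (μ x))

lemma genFun_unit (μ : X → PMF (X →₀ ℕ)) {z : X → ℝ} (hz : Unit01 z) : Unit01 (genFun μ z) :=
  fun x => ⟨genFun_nonneg μ hz x, genFun_le_one μ hz x⟩

lemma genFun_mono (μ : X → PMF (X →₀ ℕ)) {z w : X → ℝ} (hz : Unit01 z) (hw : Unit01 w)
    (h : ∀ x, z x ≤ w x) (x : X) : genFun μ z x ≤ genFun μ w x :=
  (summable_gen μ hz x).tsum_le_tsum
    (fun f => mul_le_mul_of_nonneg_left (pw_mono hz h f) ENNReal.toReal_nonneg)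
    (summable_gen μ hw x)

lemma genFun_one (μ : X → PMF (X →₀ ℕ)) (x : X) : genFun μ (fun _ => 1) x = 1 := by
  rw [genFun_eq]
  refine Eq.trans (tsum_congr fun f => ?_) (tsum_pmf (μ x))
  simp [pw, Finsupp.prod]

lemma genFun_tendsto (μ : X → PMF (X →₀ ℕ)) {ι : Type*} {l : Filter ι} {w : ι → X → ℝ}
    {w0 : X → ℝ} (hw : ∀ᶠ i in l, Unit01 (w i))
    (h : ∀ x, Tendsto (fun i => w i x) l (𝓝 (w0 x))) (x : X) :
    Tendsto (fun i => genFun μ (w i) x) l (𝓝 (genFun μ w0 x)) := by
  simp only [genFun_eq]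
  refine tendsto_tsum_of_dominated_convergence (summable_pmf (μ x))
    (fun f => (pw_tendsto h f).const_mul _) ?_
  filter_upwards [hw] with i hi f
  rw [Real.norm_of_nonneg (mul_nonneg ENNReal.toReal_nonneg (pw_nonneg hi f))]
  exact mul_le_of_le_one_right ENNReal.toReal_nonneg (pw_le_one hi f)

/-! ### A relation between ordered pairs preserved by the generating function -/

/-- `l ≤ u`, `l' ≤ u'`, `l ≤ l'` and the increment `u - l` is at most `u' - l'`. -/
structure Rel (l u l' u' : ℝ) : Prop where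
  nonneg : 0 ≤ l
  le : l ≤ u
  low : l ≤ l'
  inc : u - l ≤ u' - l'

lemma Rel.up {l u l' u' : ℝ} (h : Rel l u l' u') : u ≤ u' := by
  have := h.low; have := h.inc; linarith

lemma Rel.mul {a b a' b' c d c' d' : ℝ} (h₁ : Rel a b a' b') (h₂ : Rel c d c' d') :
    Rel (a * c) (b * d) (a' * c') (b' * d') := by
  have hb : 0 ≤ b := h₁.nonneg.trans h₁.le
  have hd : 0 ≤ d := h₂.nonneg.trans h₂.le
  have ha' : 0 ≤ a' := h₁.nonneg.trans h₁.low
  refine ⟨mul_nonneg h₁.nonneg h₂.nonneg, ?_, ?_, ?_⟩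
  · exact mul_le_mul h₁.le h₂.le h₂.nonneg hb
  · exact mul_le_mul h₁.low h₂.low h₂.nonneg ha'
  · have e1 : b * d - a * c = (b - a) * d + a * (d - c) := by ring
    have e2 : b' * d' - a' * c' = (b' - a') * d' + a' * (d' - c') := by ring
    rw [e1, e2]
    have i1 : (b - a) * d ≤ (b' - a') * d' := by
      refine mul_le_mul h₁.inc h₂.up hd ?_
      have := h₁.inc; have := h₁.le; linarith
    have i2 : a * (d - c) ≤ a' * (d' - c') := by
      refine mul_le_mul h₁.low h₂.inc ?_ ha'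
      have := h₂.le; linarith
    linarith

lemma Rel.one : Rel 1 1 1 1 := ⟨zero_le_one, le_rfl, le_rfl, le_rfl⟩

lemma Rel.pow {a b a' b' : ℝ} (h : Rel a b a' b') (n : ℕ) :
    Rel (a ^ n) (b ^ n) (a' ^ n) (b' ^ n) := by
  induction n with
  | zero => simpa using Rel.one
  | succ n ih => simpa only [pow_succ] using ih.mul h

lemma Rel.pw {l u l' u' : X → ℝ} (h : ∀ x, Rel (l x) (u x) (l' x) (u' x)) (f : X →₀ ℕ) :
    Rel (pw l f) (pw u f) (pw l' f) (pw u' f) := by
  classical
  unfold MP_087ef2_pr.pw Finsupp.prod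
  induction f.support using Finset.induction_on with
  | empty => simpa using Rel.one
  | insert a s ha ih =>
    rw [Finset.prod_insert ha, Finset.prod_insert ha, Finset.prod_insert ha, Finset.prod_insert ha]
    exact ((h a).pow _).mul ih

lemma Rel.genFun (μ : X → PMF (X →₀ ℕ)) {l u l' u' : X → ℝ} (hl : Unit01 l) (hu : Unit01 u)
    (hl' : Unit01 l') (hu' : Unit01 u')
    (h : ∀ x, Rel (l x) (u x) (l' x) (u' x)) (x : X) :
    Rel (genFun μ l x) (genFun μ u x) (genFun μ l' x) (genFun μ u' x) := by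
  refine ⟨genFun_nonneg μ hl x, genFun_mono μ hl hu (fun y => (h y).le) x,
    genFun_mono μ hl hl' (fun y => (h y).low) x, ?_⟩
  simp only [genFun_eq]
  rw [← (summable_gen μ hu x).tsum_sub (summable_gen μ hl x),
    ← (summable_gen μ hu' x).tsum_sub (summable_gen μ hl' x)]
  refine ((summable_gen μ hu x).sub (summable_gen μ hl x)).tsum_le_tsum (fun f => ?_)
    ((summable_gen μ hu' x).sub (summable_gen μ hl' x))
  rw [← mul_sub, ← mul_sub]
  exact mul_le_mul_of_nonneg_left (Rel.pw h f).inc ENNReal.toReal_nonneg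

/-! ### The frozen iteration -/

open scoped Classical in
/-- The generating function frozen outside `F`. -/
noncomputable def frz (μ : X → PMF (X →₀ ℕ)) (F : Set X) (w : X → ℝ) (x : X) : ℝ :=
  if x ∈ F then genFun μ w x else w x

lemma frz_of_mem (μ : X → PMF (X →₀ ℕ)) {F : Set X} (w : X → ℝ) {x : X} (hx : x ∈ F) :
    frz μ F w x = genFun μ w x := if_pos hx

lemma frz_of_notMem (μ : X → PMF (X →₀ ℕ)) {F : Set X} (w : X → ℝ) {x : X} (hx : x ∉ F) :
    frz μ F w x = w x := if_neg hx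

lemma frz_unit (μ : X → PMF (X →₀ ℕ)) (F : Set X) {w : X → ℝ} (hw : Unit01 w) :
    Unit01 (frz μ F w) := by
  intro x
  by_cases hx : x ∈ F
  · rw [frz_of_mem μ w hx]; exact genFun_unit μ hw x
  · rw [frz_of_notMem μ w hx]; exact hw x

lemma frz_iter_unit (μ : X → PMF (X →₀ ℕ)) (F : Set X) {w : X → ℝ} (hw : Unit01 w) (n : ℕ) :
    Unit01 ((frz μ F)^[n] w) := by
  induction n with
  | zero => exact hw
  | succ n ih => rw [Function.iterate_succ_apply']; exact frz_unit μ F ih

lemma frz_mono (μ : X → PMF (X →₀ ℕ)) (F : Set X) {w v : X → ℝ} (hw : Unit01 w) (hv : Unit01 v)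
    (h : ∀ x, w x ≤ v x) (x : X) : frz μ F w x ≤ frz μ F v x := by
  by_cases hx : x ∈ F
  · rw [frz_of_mem μ w hx, frz_of_mem μ v hx]; exact genFun_mono μ hw hv h x
  · rw [frz_of_notMem μ w hx, frz_of_notMem μ v hx]; exact h x

lemma frz_iter_mono (μ : X → PMF (X →₀ ℕ)) (F : Set X) {w v : X → ℝ} (hw : Unit01 w)
    (hv : Unit01 v) (h : ∀ x, w x ≤ v x) (n : ℕ) (x : X) :
    (frz μ F)^[n] w x ≤ (frz μ F)^[n] v x := by
  induction n generalizing x with
  | zero => exact h x
  | succ n ih =>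
    rw [Function.iterate_succ_apply', Function.iterate_succ_apply']
    exact frz_mono μ F (frz_iter_unit μ F hw n) (frz_iter_unit μ F hv n) ih x

lemma frz_iter_rel (μ : X → PMF (X →₀ ℕ)) (F : Set X) {l u l' u' : X → ℝ} (hl : Unit01 l)
    (hu : Unit01 u) (hl' : Unit01 l') (hu' : Unit01 u')
    (h : ∀ x, Rel (l x) (u x) (l' x) (u' x)) (n : ℕ) (x : X) :
    Rel ((frz μ F)^[n] l x) ((frz μ F)^[n] u x) ((frz μ F)^[n] l' x) ((frz μ F)^[n] u' x) := by
  induction n generalizing x with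
  | zero => exact h x
  | succ n ih =>
    simp only [Function.iterate_succ_apply']
    by_cases hx : x ∈ F
    · simp only [frz_of_mem μ _ hx]
      exact Rel.genFun μ (frz_iter_unit μ F hl n) (frz_iter_unit μ F hu n)
        (frz_iter_unit μ F hl' n) (frz_iter_unit μ F hu' n) ih x
    · simp only [frz_of_notMem μ _ hx]
      exact ih x

lemma frz_iter_fixed (μ : X → PMF (X →₀ ℕ)) (F : Set X) {z : X → ℝ}
    (hz : ∀ x, genFun μ z x = z x) (n : ℕ) : (frz μ F)^[n] z = z := by
  have h1 : frz μ F z = z := by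
    funext x
    by_cases hx : x ∈ F
    · rw [frz_of_mem μ z hx, hz x]
    · rw [frz_of_notMem μ z hx]
  exact Function.iterate_fixed h1 n

open scoped Classical in
/-- Boundary value `(1-t) z' + t z` outside `F`, zero on `F`. -/
noncomputable def base (F : Set X) (z z' : X → ℝ) (t : ℝ) (x : X) : ℝ :=
  if x ∈ F then 0 else (1 - t) * z' x + t * z x

lemma base_unit (F : Set X) {z z' : X → ℝ} (hz : Unit01 z) (hz' : Unit01 z') {t : ℝ}
    (ht : t ∈ Set.Icc (0 : ℝ) 1) : Unit01 (base F z z' t) := by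
  intro x
  unfold base
  split_ifs
  · exact ⟨le_rfl, zero_le_one⟩
  · obtain ⟨h0, h1⟩ := ht
    obtain ⟨a0, a1⟩ := hz x
    obtain ⟨b0, b1⟩ := hz' x
    constructor
    · have := mul_nonneg (sub_nonneg.2 h1) b0
      have := mul_nonneg h0 a0
      linarith
    · have := mul_le_mul_of_nonneg_left b1 (sub_nonneg.2 h1)
      have := mul_le_mul_of_nonneg_left a1 h0
      linarith

lemma base_anti (F : Set X) {z z' : X → ℝ} (hle : ∀ x, z x ≤ z' x) {s t : ℝ} (hst : s ≤ t)
    (x : X) : base F z z' t x ≤ base F z z' s x := by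
  unfold base
  split_ifs
  · exact le_rfl
  · have := mul_nonneg (sub_nonneg.2 hst) (sub_nonneg.2 (hle x))
    linarith

lemma base_le_iter (μ : X → PMF (X →₀ ℕ)) (F : Set X) {z z' : X → ℝ} (hz : Unit01 z)
    (hz' : Unit01 z') {t : ℝ} (ht : t ∈ Set.Icc (0 : ℝ) 1) (n : ℕ) (x : X) :
    base F z z' t x ≤ (frz μ F)^[n] (base F z z' t) x := by
  by_cases hx : x ∈ F
  · have : base F z z' t x = 0 := if_pos hx
    rw [this]
    exact (frz_iter_unit μ F (base_unit F hz hz' ht) n x).1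
  · have : ∀ m, (frz μ F)^[m] (base F z z' t) x = base F z z' t x := by
      intro m
      induction m with
      | zero => rfl
      | succ m ih => rw [Function.iterate_succ_apply', frz_of_notMem μ _ hx, ih]
    rw [this n]

lemma iter_notMem (μ : X → PMF (X →₀ ℕ)) (F : Set X) (w : X → ℝ) {x : X} (hx : x ∉ F) (m : ℕ) :
    (frz μ F)^[m] w x = w x := by
  induction m with
  | zero => rfl
  | succ m ih => rw [Function.iterate_succ_apply', frz_of_notMem μ _ hx, ih]

/-- The interpolation lemma: if the frozen iteration started from `z'` killed on `F` increases to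
`z'`, then every value between `z x₀` and `z' x₀` is taken at `x₀` by some vector `w` between `z`
and `z'` which satisfies the fixed point equation on `F`. -/
theorem exists_partial_fixed (μ : X → PMF (X →₀ ℕ)) (F : Set X) {z z' : X → ℝ}
    (hz : z ∈ fixedPoints μ) (hz' : z' ∈ fixedPoints μ) (hle : ∀ x, z x ≤ z' x)
    (H : ∀ x, Tendsto (fun n => (frz μ F)^[n] (base F z z' 0) x) atTop (𝓝 (z' x)))
    (x₀ : X) {s : ℝ} (hs : s ∈ Set.Icc (z x₀) (z' x₀)) :
    ∃ w : X → ℝ, (∀ x, z x ≤ w x ∧ w x ≤ z' x) ∧ w x₀ = s ∧ ∀ x ∈ F, genFun μ w x = w x := by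
  have hzu : Unit01 z := hz.1
  have hzu' : Unit01 z' := hz'.1
  have I0 : (0 : ℝ) ∈ Set.Icc (0 : ℝ) 1 := ⟨le_rfl, zero_le_one⟩
  have I1 : (1 : ℝ) ∈ Set.Icc (0 : ℝ) 1 := ⟨zero_le_one, le_rfl⟩
  -- the iterates
  set L : ℕ → ℝ → X → ℝ := fun n t => (frz μ F)^[n] (base F z z' t) with hL
  have Lunit : ∀ n, ∀ t ∈ Set.Icc (0 : ℝ) 1, Unit01 (L n t) := fun n t ht =>
    frz_iter_unit μ F (base_unit F hzu hzu' ht) n
  have Lmono : ∀ t ∈ Set.Icc (0 : ℝ) 1, ∀ x, Monotone fun n => L n t x := by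
    intro t ht x
    refine monotone_nat_of_le_succ fun n => ?_
    change (frz μ F)^[n] (base F z z' t) x ≤ (frz μ F)^[n + 1] (base F z z' t) x
    rw [Function.iterate_succ_apply]
    refine frz_iter_mono μ F (base_unit F hzu hzu' ht)
      (frz_unit μ F (base_unit F hzu hzu' ht)) (fun y => ?_) n x
    simpa using base_le_iter μ F hzu hzu' ht 1 y
  -- relation between parameter `t` and parameter `0`
  have Lrel : ∀ t ∈ Set.Icc (0 : ℝ) 1, ∀ n m, n ≤ m → ∀ x,
      Rel (L n t x) (L m t x) (L n 0 x) (L m 0 x) := by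
    intro t ht n m hnm x
    obtain ⟨k, rfl⟩ := Nat.exists_eq_add_of_le hnm
    have e : ∀ t, L (n + k) t = (frz μ F)^[n] (L k t) := by
      intro t
      simp only [hL]
      rw [Function.iterate_add_apply]
    rw [e, e]
    refine frz_iter_rel μ F (base_unit F hzu hzu' ht) (Lunit k t ht) (base_unit F hzu hzu' I0)
      (Lunit k 0 I0) (fun y => ?_) n x
    refine ⟨(base_unit F hzu hzu' ht y).1, base_le_iter μ F hzu hzu' ht k y,
      base_anti F hle ht.1 y, ?_⟩
    by_cases hy : y ∈ F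
    · have b0 : ∀ t, base F z z' t y = 0 := fun t => if_pos hy
      rw [b0, b0, sub_zero, sub_zero]
      exact frz_iter_mono μ F (base_unit F hzu hzu' ht) (base_unit F hzu hzu' I0)
        (base_anti F hle ht.1) k y
    · simp only [hL, iter_notMem μ F _ hy]
      simp
  have Lle0 : ∀ t ∈ Set.Icc (0 : ℝ) 1, ∀ n x, L n t x ≤ L n 0 x := fun t ht n x =>
    (Lrel t ht n n le_rfl x).low
  have L0le : ∀ n x, L n 0 x ≤ z' x := fun n x => by
    have := (Lmono 0 I0 x).ge_of_tendsto (H x) n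
    exact this
  -- the limit
  have hbdd : ∀ t ∈ Set.Icc (0 : ℝ) 1, ∀ x, BddAbove (Set.range fun n => L n t x) := by
    intro t ht x
    refine ⟨1, ?_⟩
    rintro _ ⟨n, rfl⟩
    exact (Lunit n t ht x).2
  set ℓ : ℝ → X → ℝ := fun t x => ⨆ n, L n t x with hℓ
  have hlim : ∀ t ∈ Set.Icc (0 : ℝ) 1, ∀ x, Tendsto (fun n => L n t x) atTop (𝓝 (ℓ t x)) :=
    fun t ht x => tendsto_atTop_ciSup (Lmono t ht x) (hbdd t ht x)
  have hℓ0 : ∀ x, ℓ 0 x = z' x := fun x => tendsto_nhds_unique (hlim 0 I0 x) (H x)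
  have hℓ1 : ∀ x, ℓ 1 x = z x := by
    intro x
    have h1 : ∀ n, Rel (L n 1 x) (z x) (L n 0 x) (z' x) := by
      intro n
      have := frz_iter_rel μ F (l := base F z z' 1) (u := z) (l' := base F z z' 0) (u' := z')
        (base_unit F hzu hzu' I1) hzu (base_unit F hzu hzu' I0) hzu' (fun y => ?_) n x
      · rwa [frz_iter_fixed μ F hz.2, frz_iter_fixed μ F hz'.2] at this
      · refine ⟨(base_unit F hzu hzu' I1 y).1, ?_, base_anti F hle zero_le_one y, ?_⟩
        · unfold base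
          split_ifs
          · exact (hzu y).1
          · simp
        · unfold base
          split_ifs
          · simpa using hle y
          · simp
    refine tendsto_nhds_unique (hlim 1 I1 x) ?_
    have h2 : Tendsto (fun n => z x - (z' x - L n 0 x)) atTop (𝓝 (z x)) := by
      have := (tendsto_const_nhds (x := z x)).sub ((tendsto_const_nhds (x := z' x)).sub (H x))
      simpa using this
    refine tendsto_of_tendsto_of_tendsto_of_le_of_le h2 tendsto_const_nhds (fun n => ?_)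
      (fun n => (h1 n).le)
    have := (h1 n).inc
    simp only [hL] at this ⊢
    linarith
  -- uniform convergence and continuity
  have hcontL : ∀ n x, ContinuousOn (fun t => L n t x) (Set.Icc (0 : ℝ) 1) := by
    intro n
    induction n with
    | zero =>
      intro x
      have : (fun t => L 0 t x) = fun t => base F z z' t x := rfl
      rw [this]
      by_cases hx : x ∈ F
      · have : (fun t => base F z z' t x) = fun _ => 0 := by funext t; exact if_pos hx
        rw [this]; exact continuousOn_const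
      · have : (fun t => base F z z' t x) = fun t => (1 - t) * z' x + t * z x := by
          funext t; exact if_neg hx
        rw [this]; fun_prop
    | succ n ih =>
      intro x
      have e : (fun t => L (n + 1) t x) = fun t => frz μ F (L n t) x := by
        funext t
        simp only [hL, Function.iterate_succ_apply']
      rw [e]
      by_cases hx : x ∈ F
      · simp only [frz_of_mem μ _ hx]
        intro t ht
        refine genFun_tendsto μ ?_ (fun y => ih y t ht) x
        filter_upwards [self_mem_nhdsWithin] with u hu using Lunit n u hu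
      · simp only [frz_of_notMem μ _ hx]
        exact ih x
  have hunif : ∀ x, TendstoUniformlyOn (fun n t => L n t x) (fun t => ℓ t x) atTop
      (Set.Icc (0 : ℝ) 1) := by
    intro x
    rw [Metric.tendstoUniformlyOn_iff]
    intro ε hε
    have h0 : Tendsto (fun n => ℓ 0 x - L n 0 x) atTop (𝓝 0) := by
      have := (tendsto_const_nhds (x := ℓ 0 x)).sub (hlim 0 I0 x)
      simpa using this
    filter_upwards [h0.eventually (gt_mem_nhds hε)] with n hn t ht
    have h1 : L n t x ≤ ℓ t x := le_ciSup (hbdd t ht x) n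
    rw [Real.dist_eq, abs_of_nonneg (sub_nonneg.2 h1)]
    refine lt_of_le_of_lt ?_ hn
    refine le_of_tendsto_of_tendsto ((hlim t ht x).sub_const _) ((hlim 0 I0 x).sub_const _) ?_
    filter_upwards [eventually_ge_atTop n] with m hm
    exact (Lrel t ht n m hm x).inc
  have hcont : ContinuousOn (fun t => ℓ t x₀) (Set.Icc (0 : ℝ) 1) :=
    (hunif x₀).continuousOn (Filter.Eventually.frequently (Eventually.of_forall fun n => hcontL n x₀))
  -- intermediate value theorem
  have hIVT := intermediate_value_Icc' (zero_le_one (α := ℝ)) hcont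
  rw [hℓ0, hℓ1] at hIVT
  obtain ⟨t, ht, hts⟩ := hIVT hs
  refine ⟨ℓ t, fun x => ⟨?_, ?_⟩, hts, fun x hx => ?_⟩
  · rw [← hℓ1 x]
    refine le_of_tendsto_of_tendsto' (hlim 1 I1 x) (hlim t ht x) fun n => ?_
    exact frz_iter_mono μ F (base_unit F hzu hzu' I1) (base_unit F hzu hzu' ht)
      (base_anti F hle ht.2) n x
  · rw [← hℓ0 x]
    exact le_of_tendsto_of_tendsto' (hlim t ht x) (hlim 0 I0 x) fun n => Lle0 t ht n x
  · have h1 : Tendsto (fun n => genFun μ (L n t) x) atTop (𝓝 (genFun μ (ℓ t) x)) :=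
      genFun_tendsto μ (Eventually.of_forall fun n => Lunit n t ht) (fun y => hlim t ht y) x
    have h2 : Tendsto (fun n => L (n + 1) t x) atTop (𝓝 (ℓ t x)) :=
      (hlim t ht x).comp (tendsto_add_atTop_nat 1)
    refine tendsto_nhds_unique h1 ?_
    refine h2.congr fun n => ?_
    simp only [hL, Function.iterate_succ_apply', frz_of_mem μ _ hx]

/-- Interpolation of fixed points by compactness. -/
theorem exists_fixed [Countable X] (μ : X → PMF (X →₀ ℕ)) {z z' : X → ℝ}
    (hz : z ∈ fixedPoints μ) (hz' : z' ∈ fixedPoints μ) (hle : ∀ x, z x ≤ z' x)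
    (F : ℕ → Set X) (hF : Monotone F) (hcov : ∀ x, z x < 1 → ∃ k, x ∈ F k)
    (H : ∀ k x, Tendsto (fun n => (frz μ (F k))^[n] (base (F k) z z' 0) x) atTop (𝓝 (z' x)))
    (x₀ : X) {s : ℝ} (hs : s ∈ Set.Icc (z x₀) (z' x₀)) :
    ∃ w ∈ fixedPoints μ, w x₀ = s := by
  choose w hw1 hw2 hw3 using fun k => exists_partial_fixed μ (F k) hz hz' hle (H k) x₀ hs
  have hcomp : IsCompact (Set.Icc z z') := isCompact_Icc
  have hmem : ∀ k, w k ∈ Set.Icc z z' := fun k => ⟨fun x => (hw1 k x).1, fun x => (hw1 k x).2⟩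
  obtain ⟨w₀, hw₀, φ, hφ, hlim⟩ := hcomp.tendsto_subseq hmem
  have hlim' : ∀ x, Tendsto (fun k => w (φ k) x) atTop (𝓝 (w₀ x)) := fun x =>
    (tendsto_pi_nhds.1 hlim x)
  have hu : ∀ k, Unit01 (w k) := fun k x =>
    ⟨(hz.1 x).1.trans (hw1 k x).1, (hw1 k x).2.trans (hz'.1 x).2⟩
  have hu₀ : Unit01 w₀ := fun x => ⟨(hz.1 x).1.trans (hw₀.1 x), (hw₀.2 x).trans (hz'.1 x).2⟩
  refine ⟨w₀, ⟨hu₀, fun x => ?_⟩, ?_⟩
  · rcases lt_or_ge (z x) 1 with hx | hx
    · obtain ⟨k, hk⟩ := hcov x hx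
      have h1 : Tendsto (fun k => genFun μ (w (φ k)) x) atTop (𝓝 (genFun μ w₀ x)) :=
        genFun_tendsto μ (Eventually.of_forall fun k => hu _) hlim' x
      refine tendsto_nhds_unique h1 ((hlim' x).congr' ?_)
      filter_upwards [eventually_ge_atTop k] with j hj
      exact (hw3 (φ j) x (hF (hj.trans (hφ.id_le j)) hk)).symm
    · have h1 : 1 ≤ w₀ x := hx.trans (hw₀.1 x)
      have h2 : 1 ≤ genFun μ w₀ x := by
        refine le_trans ?_ (genFun_mono μ hz.1 hu₀ hw₀.1 x)
        rw [hz.2 x]; exact hx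
      have h3 := (hu₀ x).2
      have h4 := genFun_le_one μ hu₀ x
      linarith
  · exact tendsto_nhds_unique (hlim' x₀) (by simp only [hw2]; exact tendsto_const_nhds)

end Pool.Agent.Lib.MP_087ef2_pr
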