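import Mathlib

/-!
# Discrete-time branching random walks: definitions

`X` is a countable set of sites, a population is a finitely supported function `X →₀ ℕ`, and
`μ x` is the law of the offspring of one particle living at `x`.
-/

open MeasureTheory Filter

namespace Pool.Agent.Lib.MP_087ef2_pr

variable {X : Type*}

/-- The set of populations `X →₀ ℕ` carries the discrete sigma-algebra. -/
instance populationMeasurableSpace : MeasurableSpace (X →₀ ℕ) := ⊤

/-- The generating function `G(z|x) = ∑_f μ_x(f) ∏_y z(y)^{f(y)}` of the branching random walk. -/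
noncomputable def genFun (μ : X → PMF (X →₀ ℕ)) (z : X → ℝ) (x : X) : ℝ :=
  ∑' f : X →₀ ℕ, (μ x f).toReal * f.prod fun y k => z y ^ k

/-- The set `F_G` of the fixed points of `G` in `[0,1]^X`. -/
def fixedPoints (μ : X → PMF (X →₀ ℕ)) : Set (X → ℝ) :=
  {z | (∀ x, 0 ≤ z x ∧ z x ≤ 1) ∧ ∀ x, genFun μ z x = z x}

/-- The law of the whole family of offspring variables `ω n (y, i)`, where `ω n (y, i)` is the
offspring of the `i`-th particle living at `y` at time `n`: these variables are independent
and `ω n (y, i)` has law `μ y`. -/
noncomputable def offspringLaw (μ : X → PMF (X →₀ ℕ)) :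
    Measure (ℕ → X × ℕ → (X →₀ ℕ)) :=
  Measure.infinitePi fun _ : ℕ => Measure.infinitePi fun t : X × ℕ => (μ t.1).toMeasure

/-- The population `η_n` at time `n` of the branching random walk started from one particle at `x`,
as a function of the offspring variables. -/
noncomputable def eta (x : X) (ω : ℕ → X × ℕ → (X →₀ ℕ)) : ℕ → (X →₀ ℕ)
  | 0 => Finsupp.single x 1
  | n + 1 => (eta x ω n).sum fun y k => ∑ i ∈ Finset.range k, ω n (y, i)

/-- The number of particles of the population `η` living in `A`. -/
noncomputable def countIn (A : Set X) (η : X →₀ ℕ) : ℕ :=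
  ∑ y ∈ η.support, A.indicator (fun y => η y) y

/-- The probability `q(x, A) = 1 - P^{δ_x}(limsup_n η_n(A) > 0)` of extinction in `A` of the
branching random walk started from one particle at `x`. -/
noncomputable def extinctionProb (μ : X → PMF (X →₀ ℕ)) (A : Set X) (x : X) : ℝ :=
  1 - (offspringLaw μ).real
    {ω | 0 < limsup (fun n => (countIn A (eta x ω n) : ℕ∞)) atTop}

/-- The set `E_G` of the extinction probability vectors `q(·, A)`, `A ⊆ X`. -/
def extinctionVectors (μ : X → PMF (X →₀ ℕ)) : Set (X → ℝ) :=
  Set.range fun A : Set X => extinctionProb μ A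

end Pool.Agent.Lib.MP_087ef2_pr
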