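import Pool.Agent.Lib.MP_087ef2_pr.Analytic

/-!
# The branching random walk process: one-step property, martingales and extinction
-/

open MeasureTheory Filter Topology

namespace Pool.Agent.Lib.MP_087ef2_pr

variable {X : Type*}

instance : DiscreteMeasurableSpace (X →₀ ℕ) := ⟨fun _ => trivial⟩

/-- The next population, given the current population `f` and the offspring variables `u`. -/
noncomputable def nxt (f : X →₀ ℕ) (u : X × ℕ → (X →₀ ℕ)) : X →₀ ℕ :=
  f.sum fun y k => ∑ i ∈ Finset.range k, u (y, i)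

lemma eta_succ (x : X) (ω : ℕ → X × ℕ → (X →₀ ℕ)) (n : ℕ) :
    eta x ω (n + 1) = nxt (eta x ω n) (ω n) := rfl

/-- `eta x ω n` depends only on `ω k`, `k < n`. -/
lemma eta_congr (x : X) {ω ω' : ℕ → X × ℕ → (X →₀ ℕ)} (n : ℕ) (h : ∀ k < n, ω k = ω' k) :
    eta x ω n = eta x ω' n := by
  induction n with
  | zero => rfl
  | succ n ih =>
    rw [eta_succ, eta_succ, ih (fun k hk => h k (hk.trans n.lt_succ_self)), h n n.lt_succ_self]

lemma eta_update (x : X) (ω : ℕ → X × ℕ → (X →₀ ℕ)) (u : X × ℕ → (X →₀ ℕ)) {n m : ℕ}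
    (h : n ≤ m) : eta x (Function.update ω m u) n = eta x ω n :=
  eta_congr x n fun k hk => Function.update_of_ne (hk.trans_le h).ne _ _

lemma measurable_sum_pop [Countable X] {α ι : Type*} [MeasurableSpace α] (s : Finset ι)
    (f : ι → α → (X →₀ ℕ)) (hf : ∀ i, Measurable (f i)) :
    Measurable fun a => ∑ i ∈ s, f i a := by
  classical
  induction s using Finset.induction_on with
  | empty => simp
  | insert a s ha ih =>
    simp only [Finset.sum_insert ha]
    have h : Measurable fun p : (X →₀ ℕ) × (X →₀ ℕ) => p.1 + p.2 := Measurable.of_discrete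
    exact h.comp ((hf a).prodMk ih)

lemma measurable_nxt_right [Countable X] (f : X →₀ ℕ) : Measurable (nxt f) := by
  unfold nxt Finsupp.sum
  refine measurable_sum_pop _ _ fun y => measurable_sum_pop _ _ fun i => ?_
  exact measurable_pi_apply _

lemma measurable_nxt [Countable X] :
    Measurable fun p : (X →₀ ℕ) × (X × ℕ → (X →₀ ℕ)) => nxt p.1 p.2 :=
  measurable_from_prod_countable_right fun f => measurable_nxt_right f

lemma measurable_eta [Countable X] (x : X) (n : ℕ) :
    Measurable fun ω : ℕ → X × ℕ → (X →₀ ℕ) => eta x ω n := by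
  induction n with
  | zero => exact measurable_const
  | succ n ih => exact measurable_nxt.comp (ih.prodMk (measurable_pi_apply n))

/-- The law of the offspring variables of one generation. -/
noncomputable def genLaw (μ : X → PMF (X →₀ ℕ)) : Measure (X × ℕ → (X →₀ ℕ)) :=
  Measure.infinitePi fun t : X × ℕ => (μ t.1).toMeasure

instance (μ : X → PMF (X →₀ ℕ)) : IsProbabilityMeasure (genLaw μ) := by
  unfold genLaw; infer_instance

lemma offspringLaw_eq (μ : X → PMF (X →₀ ℕ)) :
    offspringLaw μ = Measure.infinitePi fun _ : ℕ => genLaw μ := rfl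

instance (μ : X → PMF (X →₀ ℕ)) : IsProbabilityMeasure (offspringLaw μ) := by
  rw [offspringLaw_eq]; infer_instance

lemma measurable_update_pair (n : ℕ) :
    Measurable fun p : (ℕ → X × ℕ → (X →₀ ℕ)) × (X × ℕ → (X →₀ ℕ)) =>
      Function.update p.1 n p.2 := by
  refine measurable_pi_iff.2 fun k => ?_
  by_cases hk : k = n
  · subst hk
    simp only [Function.update_self]
    exact measurable_snd
  · simp only [Function.update_of_ne hk]
    exact (measurable_pi_apply k).comp measurable_fst

/-- Resampling one generation preserves the law. -/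
lemma map_update (μ : X → PMF (X →₀ ℕ)) (n : ℕ) :
    ((offspringLaw μ).prod (genLaw μ)).map
      (fun p => Function.update p.1 n p.2) = offspringLaw μ := by
  classical
  conv_rhs => rw [offspringLaw_eq]
  refine Measure.eq_infinitePi _ fun s t ht => ?_
  rw [Measure.map_apply (measurable_update_pair n)
    (MeasurableSet.pi s.countable_toSet fun i _ => ht i)]
  have hpre : (fun p : (ℕ → X × ℕ → (X →₀ ℕ)) × (X × ℕ → (X →₀ ℕ)) =>
      Function.update p.1 n p.2) ⁻¹' (Set.pi (s : Set ℕ) t)
      = (Set.pi ((s.erase n : Finset ℕ) : Set ℕ) t) ×ˢ (if n ∈ s then t n else Set.univ) := by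
    ext p
    simp only [Set.mem_preimage, Set.mem_pi, Finset.mem_coe, Set.mem_prod, Finset.mem_erase]
    constructor
    · intro h
      refine ⟨fun i hi => ?_, ?_⟩
      · have := h i hi.2
        rwa [Function.update_of_ne hi.1] at this
      · split_ifs with hn
        · have := h n hn
          rwa [Function.update_self] at this
        · trivial
    · rintro ⟨h1, h2⟩ i hi
      by_cases hin : i = n
      · subst hin
        rw [Function.update_self]
        rwa [if_pos hi] at h2
      · rw [Function.update_of_ne hin]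
        exact h1 i ⟨hin, hi⟩
  rw [hpre, Measure.prod_prod, offspringLaw_eq, Measure.infinitePi_pi _ (fun i _ => ht i)]
  by_cases hn : n ∈ s
  · rw [if_pos hn, Finset.prod_erase_mul s _ hn]
  · rw [if_neg hn, measure_univ, mul_one, Finset.erase_eq_of_notMem hn]

lemma integral_pw_single (μ : X → PMF (X →₀ ℕ)) [Countable X] {w : X → ℝ} (hw : Unit01 w)
    (x : X) : ∫ f, pw w f ∂(μ x).toMeasure = genFun μ w x := by
  rw [PMF.integral_eq_tsum]
  · rfl
  · refine Integrable.of_bound (Measurable.of_discrete.aestronglyMeasurable) 1 ?_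
    refine Eventually.of_forall fun f => ?_
    rw [Real.norm_of_nonneg (pw_nonneg hw f)]
    exact pw_le_one hw f

lemma pw_nxt (w : X → ℝ) (f : X →₀ ℕ) (u : X × ℕ → (X →₀ ℕ)) :
    pw w (nxt f u) = ∏ y ∈ f.support, ∏ i ∈ Finset.range (f y), pw w (u (y, i)) := by
  unfold nxt Finsupp.sum
  rw [pw_sum]
  refine Finset.prod_congr rfl fun y _ => ?_
  rw [pw_sum]

lemma integral_nxt (μ : X → PMF (X →₀ ℕ)) [Countable X] {w : X → ℝ} (hw : Unit01 w)
    (f : X →₀ ℕ) : ∫ u, pw w (nxt f u) ∂(genLaw μ) = pw (genFun μ w) f := by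
  classical
  set S : Finset (X × ℕ) := f.support.biUnion fun y => (Finset.range (f y)).image fun i => (y, i)
    with hS
  have key : ∀ g : X × ℕ → ℝ, ∏ y ∈ f.support, ∏ i ∈ Finset.range (f y), g (y, i)
      = ∏ t ∈ S, g t := by
    intro g
    rw [hS, Finset.prod_biUnion]
    · refine Finset.prod_congr rfl fun y _ => ?_
      rw [Finset.prod_image]
      intro a _ b _ h
      exact (Prod.mk.inj h).2
    · intro a _ b _ hab
      simp only [Function.onFun]
      rw [Finset.disjoint_left]
      rintro ⟨c, d⟩ h1 h2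
      simp only [Finset.mem_image, Finset.mem_range, Prod.mk.injEq] at h1 h2
      obtain ⟨_, _, h1, _⟩ := h1
      obtain ⟨_, _, h2, _⟩ := h2
      exact hab (h1.trans h2.symm)
  have e1 : ∀ u : X × ℕ → (X →₀ ℕ), pw w (nxt f u)
      = (fun v : (S → (X →₀ ℕ)) => ∏ t : S, pw w (v t)) (S.restrict u) := by
    intro u
    rw [pw_nxt, key (fun t => pw w (u t))]
    simp only [Finset.restrict]
    rw [Finset.prod_coe_sort S (fun t => pw w (u t))]
  simp only [e1]
  unfold genLaw
  have h1 := integral_restrict_infinitePi (μ := fun t : X × ℕ => (μ t.1).toMeasure) (s := S)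
    (f := fun v : (S → (X →₀ ℕ)) => ∏ t : S, pw w (v t)) ?_
  · rw [h1]
    have h2 := integral_fintype_prod_eq_prod (𝕜 := ℝ) (ι := S) (E := fun _ => X →₀ ℕ)
      (fun (_ : S) (v : X →₀ ℕ) => pw w v) (μ := fun t : S => (μ t.1.1).toMeasure)
    rw [h2]
    simp only [integral_pw_single μ hw]
    rw [Finset.prod_coe_sort S (fun t => genFun μ w t.1), ← key (fun t => genFun μ w t.1)]
    unfold pw Finsupp.prod
    refine Finset.prod_congr rfl fun y _ => ?_
    simp only [Finset.prod_const, Finset.card_range]
  · refine Measurable.aestronglyMeasurable ?_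
    refine Finset.measurable_prod _ fun t _ => ?_
    exact (Measurable.of_discrete (f := fun v : X →₀ ℕ => pw w v)).comp (measurable_pi_apply t)

lemma measurable_pw_eta [Countable X] (w : X → ℝ) (x : X) (n : ℕ) :
    Measurable fun ω : ℕ → X × ℕ → (X →₀ ℕ) => pw w (eta x ω n) :=
  (Measurable.of_discrete (f := pw w)).comp (measurable_eta x n)

lemma norm_pw_le {w : X → ℝ} (hw : Unit01 w) (f : X →₀ ℕ) : ‖pw w f‖ ≤ 1 := by
  rw [Real.norm_of_nonneg (pw_nonneg hw f)]
  exact pw_le_one hw f

/-- The one-step (Markov) property. -/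
lemma one_step (μ : X → PMF (X →₀ ℕ)) [Countable X] (x : X) (n : ℕ)
    (Φ : (ℕ → X × ℕ → (X →₀ ℕ)) → ℝ) (hΦ : Measurable Φ) (hb : ∀ ω, ‖Φ ω‖ ≤ 1)
    (hdep : ∀ ω u, Φ (Function.update ω n u) = Φ ω) {w : X → ℝ} (hw : Unit01 w) :
    ∫ ω, Φ ω * pw w (eta x ω (n + 1)) ∂(offspringLaw μ)
      = ∫ ω, Φ ω * pw (genFun μ w) (eta x ω n) ∂(offspringLaw μ) := by
  have hm : Measurable fun ω => Φ ω * pw w (eta x ω (n + 1)) :=
    hΦ.mul (measurable_pw_eta w x (n + 1))
  conv_lhs => rw [← map_update μ n]
  rw [integral_map (measurable_update_pair n).aemeasurable hm.aestronglyMeasurable]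
  rw [integral_prod]
  · refine integral_congr_ae (Eventually.of_forall fun ω => ?_)
    simp only
    have e : ∀ u, Φ (Function.update ω n u) * pw w (eta x (Function.update ω n u) (n + 1))
        = Φ ω * pw w (nxt (eta x ω n) u) := by
      intro u
      rw [hdep, eta_succ, eta_update x ω u le_rfl, Function.update_self]
    simp only [e]
    rw [integral_const_mul, integral_nxt μ hw]
  · refine Integrable.of_bound (hm.comp (measurable_update_pair n)).aestronglyMeasurable 1 ?_
    refine Eventually.of_forall fun p => ?_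
    rw [norm_mul]
    exact mul_le_one₀ (hb _) (norm_nonneg _) (norm_pw_le hw _)

/-- `E_x[w^{η_n}] = G^n(w|x)`. -/
lemma integral_pw_eta (μ : X → PMF (X →₀ ℕ)) [Countable X] (x : X) (n : ℕ) {w : X → ℝ}
    (hw : Unit01 w) :
    ∫ ω, pw w (eta x ω n) ∂(offspringLaw μ) = (genFun μ)^[n] w x := by
  induction n generalizing w with
  | zero =>
    simp only [eta, pw_single, Function.iterate_zero, id_eq]
    simp
  | succ n ih =>
    have h := one_step μ x n (fun _ => 1) measurable_const (fun _ => by simp) (fun _ _ => rfl) hw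
    simp only [one_mul] at h
    rw [h, ih (genFun_unit μ hw), Function.iterate_succ_apply]

/-! ### Extinction probabilities -/

open scoped Classical in
/-- `u` killed on `A`. -/
noncomputable def kill (A : Set X) (u : X → ℝ) (y : X) : ℝ := if y ∈ A then 0 else u y

lemma kill_unit (A : Set X) {u : X → ℝ} (hu : Unit01 u) : Unit01 (kill A u) := by
  intro y
  unfold kill
  split_ifs
  · exact ⟨le_rfl, zero_le_one⟩
  · exact hu y

lemma countIn_eq_zero_iff (A : Set X) (η : X →₀ ℕ) :
    countIn A η = 0 ↔ ∀ y ∈ η.support, y ∉ A := by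
  classical
  unfold countIn
  rw [Finset.sum_eq_zero_iff]
  refine forall₂_congr fun y hy => ?_
  rw [Set.indicator_apply_eq_zero]
  have : η y ≠ 0 := Finsupp.mem_support_iff.1 hy
  constructor
  · intro h hA; exact this (h hA)
  · intro h hA; exact absurd hA h

open scoped Classical in
lemma pw_kill (A : Set X) (u : X → ℝ) (η : X →₀ ℕ) :
    pw (kill A u) η = if countIn A η = 0 then pw u η else 0 := by
  split_ifs with h
  · rw [countIn_eq_zero_iff] at h
    unfold pw Finsupp.prod
    refine Finset.prod_congr rfl fun y hy => ?_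
    have e : kill A u y = u y := if_neg (h y hy)
    simp only [e]
  · rw [countIn_eq_zero_iff] at h
    push Not at h
    obtain ⟨y, hy, hA⟩ := h
    unfold pw Finsupp.prod
    refine Finset.prod_eq_zero hy ?_
    have e : kill A u y = 0 := if_pos hA
    simp only [e]
    exact zero_pow (Finsupp.mem_support_iff.1 hy)

lemma measurable_countIn [Countable X] (A : Set X) (x : X) (n : ℕ) :
    Measurable fun ω : ℕ → X × ℕ → (X →₀ ℕ) => countIn A (eta x ω n) :=
  (Measurable.of_discrete (f := countIn A)).comp (measurable_eta x n)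

/-- No particle in `A` at the times of `[N, N+m)`. -/
def noVisit (A : Set X) (x : X) (N m : ℕ) : Set (ℕ → X × ℕ → (X →₀ ℕ)) :=
  {ω | ∀ k, N ≤ k → k < N + m → countIn A (eta x ω k) = 0}

lemma measurableSet_noVisit [Countable X] (A : Set X) (x : X) (N m : ℕ) :
    MeasurableSet (noVisit A x N m) := by
  have : noVisit A x N m = ⋂ k, ⋂ (_ : N ≤ k), ⋂ (_ : k < N + m),
      {ω | countIn A (eta x ω k) = 0} := by
    ext ω; simp [noVisit]
  rw [this]
  refine MeasurableSet.iInter fun k => MeasurableSet.iInter fun _ => MeasurableSet.iInter fun _ => ?_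
  exact measurable_countIn A x k (measurableSet_singleton 0)

lemma noVisit_update (A : Set X) (x : X) (N m : ℕ) (ω : ℕ → X × ℕ → (X →₀ ℕ))
    (u : X × ℕ → (X →₀ ℕ)) :
    Function.update ω (N + m) u ∈ noVisit A x N (m + 1) ↔ ω ∈ noVisit A x N (m + 1) := by
  unfold noVisit
  simp only [Set.mem_ofPred_eq]
  refine forall_congr' fun k => forall_congr' fun _ => forall_congr' fun hk => ?_
  rw [eta_update x ω u (by omega)]

lemma killed_iter (μ : X → PMF (X →₀ ℕ)) [Countable X] (A : Set X) (x : X) (N m : ℕ) {w : X → ℝ}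
    (hw : Unit01 w) :
    ∫ ω, (noVisit A x N m).indicator (fun _ => (1 : ℝ)) ω * pw w (eta x ω (N + m))
      ∂(offspringLaw μ) = (genFun μ)^[N] ((fun v => kill A (genFun μ v))^[m] w) x := by
  classical
  induction m generalizing w with
  | zero =>
    have : noVisit A x N 0 = Set.univ := by
      ext ω; simp only [noVisit, Set.mem_ofPred_eq, Set.mem_univ, iff_true]; intros; omega
    simp only [this, Set.indicator_univ, one_mul, Nat.add_zero]
    exact integral_pw_eta μ x N hw
  | succ m ih =>
    have h := one_step μ x (N + m) ((noVisit A x N (m + 1)).indicator fun _ => (1 : ℝ))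
      (measurable_const.indicator (measurableSet_noVisit A x N (m + 1)))
      (fun ω => by
        by_cases hω : ω ∈ noVisit A x N (m + 1)
        · simp [hω]
        · simp [hω])
      (fun ω u => by
        simp only [Set.indicator_apply, noVisit_update]) hw
    rw [← Nat.add_assoc, h, Function.iterate_succ_apply, ← ih (kill_unit A (genFun_unit μ hw))]
    refine integral_congr_ae (Eventually.of_forall fun ω => ?_)
    simp only [pw_kill]
    have hiff : ω ∈ noVisit A x N (m + 1) ↔ ω ∈ noVisit A x N m ∧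
        countIn A (eta x ω (N + m)) = 0 := by
      simp only [noVisit, Set.mem_ofPred_eq]
      constructor
      · intro h
        exact ⟨fun k h1 h2 => h k h1 (by omega), h (N + m) (by omega) (by omega)⟩
      · rintro ⟨h1, h2⟩ k hk1 hk2
        rcases Nat.lt_or_ge k (N + m) with hlt | hge
        · exact h1 k hk1 hlt
        · have : k = N + m := by omega
          rw [this]; exact h2
    simp only [Set.indicator_apply, hiff]
    by_cases h1 : ω ∈ noVisit A x N m <;> by_cases h2 : countIn A (eta x ω (N + m)) = 0 <;>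
      simp [h1, h2]

/-- No particle in `A` from time `N` on. -/
def noVisitFrom (A : Set X) (x : X) (N : ℕ) : Set (ℕ → X × ℕ → (X →₀ ℕ)) :=
  {ω | ∀ k, N ≤ k → countIn A (eta x ω k) = 0}

lemma noVisitFrom_eq (A : Set X) (x : X) (N : ℕ) :
    noVisitFrom A x N = ⋂ m, noVisit A x N m := by
  ext ω
  simp only [noVisitFrom, noVisit, Set.mem_ofPred_eq, Set.mem_iInter]
  constructor
  · intro h m k h1 _; exact h k h1
  · intro h k hk; exact h (k + 1) k hk (by omega)

lemma measurableSet_noVisitFrom [Countable X] (A : Set X) (x : X) (N : ℕ) :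
    MeasurableSet (noVisitFrom A x N) := by
  rw [noVisitFrom_eq]
  exact MeasurableSet.iInter fun m => measurableSet_noVisit A x N m

lemma limsup_pos_iff (c : ℕ → ℕ) :
    0 < limsup (fun n => (c n : ℕ∞)) atTop ↔ ∃ᶠ n in atTop, 0 < c n := by
  constructor
  · intro h
    by_contra hf
    rw [not_frequently] at hf
    have : limsup (fun n => (c n : ℕ∞)) atTop = 0 := by
      rw [limsup_congr (v := fun _ => (0 : ℕ∞))]
      · exact limsup_const _
      · filter_upwards [hf] with n hn
        have : c n = 0 := by omega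
        simp [this]
    rw [this] at h
    exact lt_irrefl _ h
  · intro h
    have h1 : (1 : ℕ∞) ≤ limsup (fun n => (c n : ℕ∞)) atTop := by
      refine le_limsup_of_frequently_le (h.mono fun n hn => ?_)
      exact_mod_cast hn
    exact lt_of_lt_of_le (by exact zero_lt_one) h1

/-- The event of survival in `A`. -/
def surv (A : Set X) (x : X) : Set (ℕ → X × ℕ → (X →₀ ℕ)) :=
  {ω | 0 < limsup (fun n => (countIn A (eta x ω n) : ℕ∞)) atTop}

lemma surv_compl_eq (A : Set X) (x : X) : (surv A x)ᶜ = ⋃ N, noVisitFrom A x N := by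
  ext ω
  simp only [surv, Set.mem_compl_iff, Set.mem_ofPred_eq, limsup_pos_iff, noVisitFrom,
    Set.mem_iUnion, not_frequently, eventually_atTop, not_lt, Nat.le_zero]

lemma measurableSet_surv [Countable X] (A : Set X) (x : X) : MeasurableSet (surv A x) := by
  rw [← compl_compl (surv A x), surv_compl_eq]
  exact (MeasurableSet.iUnion fun N => measurableSet_noVisitFrom A x N).compl

lemma extinctionProb_eq (μ : X → PMF (X →₀ ℕ)) [Countable X] (A : Set X) (x : X) :
    extinctionProb μ A x = (offspringLaw μ).real (⋃ N, noVisitFrom A x N) := by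
  rw [← surv_compl_eq, measureReal_compl (measurableSet_surv A x)]
  simp [extinctionProb, surv]

/-- The probability of no particle in `A` from time `N` on. -/
noncomputable def qN (μ : X → PMF (X →₀ ℕ)) (A : Set X) (N : ℕ) (x : X) : ℝ :=
  (offspringLaw μ).real (noVisitFrom A x N)

lemma qN_unit (μ : X → PMF (X →₀ ℕ)) (A : Set X) (N : ℕ) : Unit01 (qN μ A N) := fun x =>
  ⟨measureReal_nonneg, measureReal_le_one⟩

lemma qN_tendsto (μ : X → PMF (X →₀ ℕ)) [Countable X] (A : Set X) (x : X) :
    Tendsto (fun N => qN μ A N x) atTop (𝓝 (extinctionProb μ A x)) := by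
  rw [extinctionProb_eq]
  have hmono : Monotone fun N => noVisitFrom A x N := by
    intro N M h ω hω k hk
    exact hω k (h.trans hk)
  have := tendsto_measure_iUnion_atTop (μ := offspringLaw μ) hmono
  exact (ENNReal.tendsto_toReal (measure_ne_top _ _)).comp this

lemma qN_le (μ : X → PMF (X →₀ ℕ)) [Countable X] (A : Set X) (N : ℕ) (x : X) :
    qN μ A N x ≤ extinctionProb μ A x := by
  rw [extinctionProb_eq]
  exact measureReal_mono (Set.subset_iUnion _ N)

lemma genFun_iter_tendsto (μ : X → PMF (X →₀ ℕ)) {w : ℕ → X → ℝ} {w0 : X → ℝ}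
    (hw : ∀ m, Unit01 (w m)) (h : ∀ x, Tendsto (fun m => w m x) atTop (𝓝 (w0 x))) (N : ℕ)
    (x : X) : Tendsto (fun m => (genFun μ)^[N] (w m) x) atTop (𝓝 ((genFun μ)^[N] w0 x)) := by
  have hu : ∀ N m, Unit01 ((genFun μ)^[N] (w m)) := by
    intro N m
    induction N with
    | zero => exact hw m
    | succ N ih => rw [Function.iterate_succ_apply']; exact genFun_unit μ ih
  induction N generalizing x with
  | zero => exact h x
  | succ N ih =>
    simp only [Function.iterate_succ_apply']
    exact genFun_tendsto μ (Eventually.of_forall fun m => hu N m) ih x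

lemma measureReal_noVisit (μ : X → PMF (X →₀ ℕ)) [Countable X] (A : Set X) (x : X) (N m : ℕ) :
    (offspringLaw μ).real (noVisit A x N m)
      = (genFun μ)^[N] ((fun v => kill A (genFun μ v))^[m] fun _ => 1) x := by
  have h := killed_iter μ A x N m (w := fun _ => 1) (fun _ => ⟨zero_le_one, le_rfl⟩)
  rw [← h]
  have e : ∀ η : X →₀ ℕ, pw (fun _ => (1 : ℝ)) η = 1 := by
    intro η; simp [pw, Finsupp.prod]
  simp only [e, mul_one]
  rw [integral_indicator_const _ (measurableSet_noVisit A x N m)]
  simp

lemma noVisit_tendsto (μ : X → PMF (X →₀ ℕ)) [Countable X] (A : Set X) (x : X) (N : ℕ) :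
    Tendsto (fun m => (offspringLaw μ).real (noVisit A x N m)) atTop (𝓝 (qN μ A N x)) := by
  have hanti : Antitone fun m => noVisit A x N m := by
    intro m m' h ω hω k hk1 hk2
    exact hω k hk1 (by omega)
  have := tendsto_measure_iInter_atTop (μ := offspringLaw μ)
    (fun m => (measurableSet_noVisit A x N m).nullMeasurableSet) hanti ⟨0, measure_ne_top _ _⟩
  rw [← noVisitFrom_eq] at this
  exact (ENNReal.tendsto_toReal (measure_ne_top _ _)).comp this

/-- `q_N = G^N(q_0)`. -/
lemma qN_eq_iter (μ : X → PMF (X →₀ ℕ)) [Countable X] (A : Set X) (N : ℕ) (x : X) :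
    qN μ A N x = (genFun μ)^[N] (qN μ A 0) x := by
  set v : ℕ → X → ℝ := fun m => (fun v => kill A (genFun μ v))^[m] fun _ => 1 with hv
  have hvu : ∀ m, Unit01 (v m) := by
    intro m
    induction m with
    | zero => exact fun _ => ⟨zero_le_one, le_rfl⟩
    | succ m ih =>
      have : v (m + 1) = kill A (genFun μ (v m)) := by
        simp only [hv, Function.iterate_succ_apply']
      rw [this]
      exact kill_unit A (genFun_unit μ ih)
  have h0 : ∀ y, Tendsto (fun m => v m y) atTop (𝓝 (qN μ A 0 y)) := by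
    intro y
    have := noVisit_tendsto μ A y 0
    refine this.congr fun m => ?_
    rw [measureReal_noVisit]
    rfl
  have h1 := genFun_iter_tendsto μ hvu h0 N x
  have h2 := noVisit_tendsto μ A x N
  refine tendsto_nhds_unique h2 (h1.congr fun m => ?_)
  rw [measureReal_noVisit]

lemma qN_succ (μ : X → PMF (X →₀ ℕ)) [Countable X] (A : Set X) (N : ℕ) (x : X) :
    qN μ A (N + 1) x = genFun μ (qN μ A N) x := by
  rw [qN_eq_iter, Function.iterate_succ_apply']
  congr 1
  funext y
  rw [qN_eq_iter μ A N]

lemma qN_zero_of_mem (μ : X → PMF (X →₀ ℕ)) [Countable X] (A : Set X) {x : X} (hx : x ∈ A) :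
    qN μ A 0 x = 0 := by
  have : noVisitFrom A x 0 = ∅ := by
    ext ω
    simp only [noVisitFrom, Set.mem_ofPred_eq, Set.mem_empty_iff_false, iff_false]
    intro h
    have := h 0 le_rfl
    rw [countIn_eq_zero_iff] at this
    exact this x (by simp [eta]) hx
  rw [qN, this]
  simp

lemma extinctionProb_unit (μ : X → PMF (X →₀ ℕ)) [Countable X] (A : Set X) :
    Unit01 (extinctionProb μ A) := fun x => by
  rw [extinctionProb_eq]
  exact ⟨measureReal_nonneg, measureReal_le_one⟩

/-- Extinction probability vectors are fixed points. -/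
lemma extinctionProb_mem (μ : X → PMF (X →₀ ℕ)) [Countable X] (A : Set X) :
    extinctionProb μ A ∈ fixedPoints μ := by
  refine ⟨extinctionProb_unit μ A, fun x => ?_⟩
  have h1 := genFun_tendsto μ (Eventually.of_forall fun N => qN_unit μ A N)
    (fun y => qN_tendsto μ A y) x
  have h2 := (qN_tendsto μ A x).comp (tendsto_add_atTop_nat 1)
  refine tendsto_nhds_unique h1 (h2.congr fun N => ?_)
  simp only [Function.comp_apply, qN_succ]

lemma extinctionProb_anti (μ : X → PMF (X →₀ ℕ)) [Countable X] {A B : Set X} (h : A ⊆ B)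
    (x : X) : extinctionProb μ B x ≤ extinctionProb μ A x := by
  rw [extinctionProb_eq, extinctionProb_eq]
  refine measureReal_mono (Set.iUnion_mono fun N ω hω k hk => ?_)
  have := hω k hk
  rw [countIn_eq_zero_iff] at this ⊢
  exact fun y hy hA => this y hy (h hA)

/-- The frozen iteration started from `q(·,A)` killed on `A` increases to `q(·,A)`. -/
lemma frozen_tendsto (μ : X → PMF (X →₀ ℕ)) [Countable X] (A : Set X) (z : X → ℝ)
    (hz : Unit01 z) (x : X) :
    Tendsto (fun n => (frz μ A)^[n] (base A z (extinctionProb μ A) 0) x) atTop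
      (𝓝 (extinctionProb μ A x)) := by
  have hu := extinctionProb_unit μ A
  have I0 : (0 : ℝ) ∈ Set.Icc (0 : ℝ) 1 := ⟨le_rfl, zero_le_one⟩
  have hb : Unit01 (base A z (extinctionProb μ A) 0) := base_unit A hz hu I0
  have hlow : ∀ n x, qN μ A n x ≤ (frz μ A)^[n] (base A z (extinctionProb μ A) 0) x := by
    intro n
    induction n with
    | zero =>
      intro x
      simp only [Function.iterate_zero, id_eq]
      unfold base
      split_ifs with hx
      · rw [qN_zero_of_mem μ A hx]
      · simpa using qN_le μ A 0 x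
    | succ n ih =>
      intro x
      rw [Function.iterate_succ_apply']
      by_cases hx : x ∈ A
      · rw [frz_of_mem μ _ hx, qN_succ]
        exact genFun_mono μ (qN_unit μ A n) (frz_iter_unit μ A hb n) ih x
      · rw [frz_of_notMem μ _ hx, iter_notMem μ A _ hx]
        have : base A z (extinctionProb μ A) 0 x = extinctionProb μ A x := by
          unfold base
          rw [if_neg hx]; simp
        rw [this]
        exact qN_le μ A (n + 1) x
  have hup : ∀ n x, (frz μ A)^[n] (base A z (extinctionProb μ A) 0) x ≤ extinctionProb μ A x := by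
    intro n x
    have := frz_iter_mono μ A hb hu (fun y => ?_) n x
    · rwa [frz_iter_fixed μ A (extinctionProb_mem μ A).2] at this
    · unfold base
      split_ifs
      · exact (hu y).1
      · simp
  exact tendsto_of_tendsto_of_tendsto_of_le_of_le (qN_tendsto μ A x) tendsto_const_nhds
    (fun n => hlow n x) (fun n => hup n x)

/-! ### The martingale `z^{η_n}` -/

/-- The filtration of the generations. -/
def pastFiltration (X : Type*) :
    Filtration ℕ (inferInstance : MeasurableSpace (ℕ → X × ℕ → (X →₀ ℕ))) where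
  seq n := MeasurableSpace.comap (fun ω (k : Set.Iio n) => ω k) inferInstance
  mono' := by
    intro n m h
    simp only
    have e : (fun (ω : ℕ → X × ℕ → (X →₀ ℕ)) (k : Set.Iio n) => ω k)
        = (fun (v : Set.Iio m → X × ℕ → (X →₀ ℕ)) (k : Set.Iio n) =>
            v ⟨k.1, lt_of_lt_of_le k.2 h⟩) ∘ (fun ω (k : Set.Iio m) => ω k) := rfl
    rw [e, ← MeasurableSpace.comap_comp]
    refine MeasurableSpace.comap_mono ?_
    exact Measurable.comap_le (measurable_pi_iff.2 fun k => measurable_pi_apply _)
  le' := by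
    intro n
    exact Measurable.comap_le (measurable_pi_iff.2 fun k => measurable_pi_apply _)

lemma mem_update_of_past {n : ℕ} {s : Set (ℕ → X × ℕ → (X →₀ ℕ))}
    (hs : MeasurableSet[pastFiltration X n] s) (ω : ℕ → X × ℕ → (X →₀ ℕ))
    (u : X × ℕ → (X →₀ ℕ)) : Function.update ω n u ∈ s ↔ ω ∈ s := by
  obtain ⟨t, _, rfl⟩ := hs
  simp only [Set.mem_preimage]
  have : (fun k : Set.Iio n => Function.update ω n u k) = fun k : Set.Iio n => ω k := by
    funext k
    exact Function.update_of_ne (ne_of_lt k.2) _ _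
  rw [this]

lemma measurable_eta_past [Countable X] (x : X) (n : ℕ) :
    Measurable[pastFiltration X n] fun ω : ℕ → X × ℕ → (X →₀ ℕ) => eta x ω n := by
  classical
  -- factor through the restriction
  have e : (fun ω : ℕ → X × ℕ → (X →₀ ℕ) => eta x ω n)
      = (fun v : Set.Iio n → X × ℕ → (X →₀ ℕ) =>
          eta x (fun k => if h : k < n then v ⟨k, h⟩ else fun _ => 0) n) ∘
        (fun ω (k : Set.Iio n) => ω k) := by
    funext ω
    simp only [Function.comp_apply]
    refine eta_congr x n fun k hk => ?_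
    simp [hk]
  rw [e]
  refine Measurable.comp ?_ (comap_measurable _)
  refine (measurable_eta x n).comp (measurable_pi_iff.2 fun k => ?_)
  by_cases h : k < n
  · simp only [h, dite_true]
    exact measurable_pi_apply _
  · simp only [h, dite_false]
    exact measurable_const

lemma martingale_pw (μ : X → PMF (X →₀ ℕ)) [Countable X] {z : X → ℝ} (hz : z ∈ fixedPoints μ)
    (x : X) :
    Martingale (fun n ω => pw z (eta x ω n)) (pastFiltration X) (offspringLaw μ) := by
  classical
  have hzu : Unit01 z := hz.1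
  have hint : ∀ n, Integrable (fun ω => pw z (eta x ω n)) (offspringLaw μ) := fun n =>
    Integrable.of_bound (measurable_pw_eta z x n).aestronglyMeasurable 1
      (Eventually.of_forall fun ω => norm_pw_le hzu _)
  refine martingale_of_setIntegral_eq_succ (fun n => ?_) hint fun n s hs => ?_
  · exact ((Measurable.of_discrete (f := pw z)).comp (measurable_eta_past x n)).stronglyMeasurable
  · have hs' : MeasurableSet s := (pastFiltration X).le n s hs
    have h := one_step μ x n (s.indicator fun _ => (1 : ℝ)) (measurable_const.indicator hs')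
      (fun ω => by
        by_cases hω : ω ∈ s
        · simp [hω]
        · simp [hω])
      (fun ω u => by simp only [Set.indicator_apply, mem_update_of_past hs]) hzu
    have hG : genFun μ z = z := funext hz.2
    rw [hG] at h
    rw [← integral_indicator hs', ← integral_indicator hs']
    have e : ∀ n ω, s.indicator (fun ω => pw z (eta x ω n)) ω
        = s.indicator (fun _ => (1 : ℝ)) ω * pw z (eta x ω n) := by
      intro n ω
      by_cases hω : ω ∈ s
      · simp [hω]
      · simp [hω]
    simp only [e]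
    exact h.symm

/-- The almost sure limit of the martingale. -/
noncomputable def Wlim (μ : X → PMF (X →₀ ℕ)) (z : X → ℝ) (x : X) :
    (ℕ → X × ℕ → (X →₀ ℕ)) → ℝ :=
  (pastFiltration X).limitProcess (fun n ω => pw z (eta x ω n)) (offspringLaw μ)

lemma Wlim_tendsto (μ : X → PMF (X →₀ ℕ)) [Countable X] {z : X → ℝ} (hz : z ∈ fixedPoints μ)
    (x : X) : ∀ᵐ ω ∂(offspringLaw μ),
      Tendsto (fun n => pw z (eta x ω n)) atTop (𝓝 (Wlim μ z x ω)) := by
  refine (martingale_pw μ hz x).submartingale.ae_tendsto_limitProcess (R := 1) fun n => ?_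
  refine (eLpNorm_le_of_ae_bound (C := 1)
    (Eventually.of_forall fun ω => norm_pw_le hz.1 _)).trans ?_
  simp

lemma Wlim_aesm (μ : X → PMF (X →₀ ℕ)) (z : X → ℝ) (x : X) :
    AEStronglyMeasurable (Wlim μ z x) (offspringLaw μ) := by
  have h : StronglyMeasurable[⨆ n, pastFiltration X n] (Wlim μ z x) :=
    Filtration.stronglyMeasurable_limitProcess
  exact (h.mono (iSup_le fun n => (pastFiltration X).le n)).aestronglyMeasurable

lemma Wlim_bounds (μ : X → PMF (X →₀ ℕ)) [Countable X] {z : X → ℝ} (hz : z ∈ fixedPoints μ)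
    (x : X) : ∀ᵐ ω ∂(offspringLaw μ), 0 ≤ Wlim μ z x ω ∧ Wlim μ z x ω ≤ 1 := by
  filter_upwards [Wlim_tendsto μ hz x] with ω hω
  exact ⟨ge_of_tendsto' hω fun n => pw_nonneg hz.1 _, le_of_tendsto' hω fun n => pw_le_one hz.1 _⟩

lemma pw_pow (z : X → ℝ) (f : X →₀ ℕ) (k : ℕ) : pw (fun y => z y ^ k) f = pw z f ^ k := by
  unfold pw Finsupp.prod
  rw [← Finset.prod_pow]
  refine Finset.prod_congr rfl fun y _ => ?_
  simp only
  rw [← pow_mul, ← pow_mul, mul_comm]

/-- `E_x[W^k]` is a fixed point for every `k`. -/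
lemma moment_mem (μ : X → PMF (X →₀ ℕ)) [Countable X] {z : X → ℝ} (hz : z ∈ fixedPoints μ)
    (k : ℕ) : (fun x => ∫ ω, Wlim μ z x ω ^ k ∂(offspringLaw μ)) ∈ fixedPoints μ := by
  have hzk : Unit01 fun y => z y ^ k := fun y =>
    ⟨pow_nonneg (hz.1 y).1 _, pow_le_one₀ (hz.1 y).1 (hz.1 y).2⟩
  have hlim : ∀ x, Tendsto (fun n => (genFun μ)^[n] (fun y => z y ^ k) x) atTop
      (𝓝 (∫ ω, Wlim μ z x ω ^ k ∂(offspringLaw μ))) := by
    intro x
    have h := tendsto_integral_of_dominated_convergence (μ := offspringLaw μ)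
      (F := fun n ω => pw z (eta x ω n) ^ k) (f := fun ω => Wlim μ z x ω ^ k) (fun _ => (1 : ℝ))
      (fun n => ((measurable_pw_eta z x n).pow_const k).aestronglyMeasurable)
      (integrable_const _)
      (fun n => Eventually.of_forall fun ω => by
        rw [norm_pow]; exact pow_le_one₀ (norm_nonneg _) (norm_pw_le hz.1 _))
      (by filter_upwards [Wlim_tendsto μ hz x] with ω hω using hω.pow k)
    refine h.congr fun n => ?_
    rw [← integral_pw_eta μ x n hzk]
    simp only [pw_pow]
  have hiu : ∀ n, Unit01 ((genFun μ)^[n] fun y => z y ^ k) := by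
    intro n
    induction n with
    | zero => exact hzk
    | succ n ih => rw [Function.iterate_succ_apply']; exact genFun_unit μ ih
  refine ⟨fun x => ⟨ge_of_tendsto' (hlim x) fun n => (hiu n x).1,
    le_of_tendsto' (hlim x) fun n => (hiu n x).2⟩, fun x => ?_⟩
  have h1 := genFun_tendsto μ (Eventually.of_forall hiu) hlim x
  have h2 := (hlim x).comp (tendsto_add_atTop_nat 1)
  refine tendsto_nhds_unique h1 (h2.congr fun n => ?_)
  simp only [Function.comp_apply, Function.iterate_succ_apply']

lemma integral_Wlim (μ : X → PMF (X →₀ ℕ)) [Countable X] {z : X → ℝ} (hz : z ∈ fixedPoints μ)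
    (x : X) : ∫ ω, Wlim μ z x ω ∂(offspringLaw μ) = z x := by
  have h := tendsto_integral_of_dominated_convergence (μ := offspringLaw μ)
    (F := fun n ω => pw z (eta x ω n)) (f := fun ω => Wlim μ z x ω) (fun _ => (1 : ℝ))
    (fun n => (measurable_pw_eta z x n).aestronglyMeasurable)
    (integrable_const _)
    (fun n => Eventually.of_forall fun ω => norm_pw_le hz.1 _) (Wlim_tendsto μ hz x)
  refine tendsto_nhds_unique h ?_
  have e : ∀ n, ∫ ω, pw z (eta x ω n) ∂(offspringLaw μ) = z x := by
    intro n
    rw [integral_pw_eta μ x n hz.1]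
    have hG : genFun μ z = z := funext hz.2
    rw [Function.iterate_fixed hG n]
  simp only [e]
  exact tendsto_const_nhds

/-- If `F_G` is finite, the limit of the martingale is `{0,1}`-valued. -/
lemma Wlim_zero_or_one (μ : X → PMF (X →₀ ℕ)) [Countable X] (hfin : (fixedPoints μ).Finite)
    {z : X → ℝ} (hz : z ∈ fixedPoints μ) (x : X) :
    ∀ᵐ ω ∂(offspringLaw μ), Wlim μ z x ω = 0 ∨ Wlim μ z x ω = 1 := by
  have hnot : ¬ Function.Injective
      (fun k : ℕ => (⟨_, moment_mem μ hz (k + 1)⟩ : fixedPoints μ)) := by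
    intro hinj
    have := hfin.to_subtype
    exact not_injective_infinite_finite _ hinj
  unfold Function.Injective at hnot
  push Not at hnot
  obtain ⟨j, k, hjk, hne⟩ := hnot
  wlog hlt : j < k generalizing j k with H
  · exact H k j hjk.symm hne.symm (by omega)
  have heq : ∫ ω, Wlim μ z x ω ^ (j + 1) ∂(offspringLaw μ)
      = ∫ ω, Wlim μ z x ω ^ (k + 1) ∂(offspringLaw μ) :=
    congrFun (congrArg Subtype.val hjk) x
  have hint : ∀ m, Integrable (fun ω => Wlim μ z x ω ^ m) (offspringLaw μ) := by
    intro m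
    refine Integrable.of_bound ((Wlim_aesm μ z x).pow m) 1 ?_
    filter_upwards [Wlim_bounds μ hz x] with ω hω
    rw [norm_pow, Real.norm_of_nonneg hω.1]
    exact pow_le_one₀ hω.1 hω.2
  have hzero : ∫ ω, (Wlim μ z x ω ^ (j + 1) - Wlim μ z x ω ^ (k + 1)) ∂(offspringLaw μ) = 0 := by
    rw [integral_sub (hint _) (hint _), heq, sub_self]
  have hnn : 0 ≤ᵐ[offspringLaw μ]
      fun ω => Wlim μ z x ω ^ (j + 1) - Wlim μ z x ω ^ (k + 1) := by
    filter_upwards [Wlim_bounds μ hz x] with ω hω
    exact sub_nonneg.2 (pow_le_pow_of_le_one hω.1 hω.2 (by omega))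
  have hae := (integral_eq_zero_iff_of_nonneg_ae hnn ((hint _).sub (hint _))).1 hzero
  filter_upwards [hae, Wlim_bounds μ hz x] with ω h1 h2
  have h3 : Wlim μ z x ω ^ (j + 1) = Wlim μ z x ω ^ (k + 1) := by
    have : Wlim μ z x ω ^ (j + 1) - Wlim μ z x ω ^ (k + 1) = 0 := h1
    linarith
  rcases eq_or_lt_of_le h2.1 with h0 | h0
  · exact Or.inl h0.symm
  · right
    have h4 : Wlim μ z x ω ^ (k - j) = 1 := by
      have e : k + 1 = (j + 1) + (k - j) := by omega
      have e' : Wlim μ z x ω ^ (k + 1) = Wlim μ z x ω ^ (j + 1) * Wlim μ z x ω ^ (k - j) := by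
        rw [e, pow_add]
      rw [e'] at h3
      have hp : Wlim μ z x ω ^ (j + 1) ≠ 0 := (pow_pos h0 _).ne'
      have : Wlim μ z x ω ^ (j + 1) * 1 = Wlim μ z x ω ^ (j + 1) * Wlim μ z x ω ^ (k - j) := by
        rw [mul_one]; exact h3
      exact (mul_left_cancel₀ hp this).symm
    exact (pow_eq_one_iff_of_nonneg h2.1 (by omega)).1 h4

/-- If `F_G` is finite then `z ≤ q(·, {z ≤ c})` for every fixed point `z` and `c < 1`. -/
lemma le_extinctionProb (μ : X → PMF (X →₀ ℕ)) [Countable X] (hfin : (fixedPoints μ).Finite)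
    {z : X → ℝ} (hz : z ∈ fixedPoints μ) {c : ℝ} (hc0 : 0 ≤ c) (hc : c < 1) (x : X) :
    z x ≤ extinctionProb μ {y | z y ≤ c} x := by
  set A : Set X := {y | z y ≤ c} with hA
  have hbound : ∀ η : X →₀ ℕ, 0 < countIn A η → pw z η ≤ c := by
    intro η hη
    have : ¬ countIn A η = 0 := by omega
    rw [countIn_eq_zero_iff] at this
    push Not at this
    obtain ⟨y, hy, hyA⟩ := this
    classical
    unfold pw Finsupp.prod
    rw [← Finset.mul_prod_erase _ _ hy]
    have h1 : z y ^ η y ≤ c := by
      have h2 : z y ^ η y ≤ z y ^ 1 := by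
        refine pow_le_pow_of_le_one (hz.1 y).1 (hz.1 y).2 ?_
        have := Finsupp.mem_support_iff.1 hy
        omega
      rw [pow_one] at h2
      exact h2.trans hyA
    have h3 : ∏ y ∈ η.support.erase y, z y ^ η y ≤ 1 :=
      Finset.prod_le_one (fun y _ => pow_nonneg (hz.1 y).1 _)
        (fun y _ => pow_le_one₀ (hz.1 y).1 (hz.1 y).2)
    have h4 : 0 ≤ ∏ y ∈ η.support.erase y, z y ^ η y :=
      Finset.prod_nonneg fun y _ => pow_nonneg (hz.1 y).1 _
    calc z y ^ η y * ∏ y ∈ η.support.erase y, z y ^ η y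
        ≤ c * 1 := mul_le_mul h1 h3 h4 hc0
      _ = c := mul_one c
  have hW : ∀ᵐ ω ∂(offspringLaw μ),
      Wlim μ z x ω ≤ (surv A x)ᶜ.indicator (fun _ => (1 : ℝ)) ω := by
    filter_upwards [Wlim_tendsto μ hz x, Wlim_zero_or_one μ hfin hz x, Wlim_bounds μ hz x]
      with ω h1 h2 h3
    by_cases hω : ω ∈ surv A x
    · rw [Set.indicator_of_notMem (by simpa using hω)]
      have hfreq : ∃ᶠ n in atTop, 0 < countIn A (eta x ω n) := (limsup_pos_iff _).1 hω
      have hle : Wlim μ z x ω ≤ c := by
        refine le_of_tendsto_of_frequently h1 (hfreq.mono fun n hn => ?_)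
        exact hbound _ hn
      rcases h2 with h2 | h2
      · exact h2.le
      · rw [h2] at hle; linarith
    · rw [Set.indicator_of_mem (by simpa using hω)]
      exact h3.2
  have hm : MeasurableSet (surv A x)ᶜ := (measurableSet_surv A x).compl
  rw [← integral_Wlim μ hz x]
  calc ∫ ω, Wlim μ z x ω ∂(offspringLaw μ)
      ≤ ∫ ω, (surv A x)ᶜ.indicator (fun _ => (1 : ℝ)) ω ∂(offspringLaw μ) := by
        refine integral_mono_ae ?_ ?_ hW
        · refine Integrable.of_bound (Wlim_aesm μ z x) 1 ?_
          filter_upwards [Wlim_bounds μ hz x] with ω hω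
          rw [Real.norm_of_nonneg hω.1]; exact hω.2
        · exact (integrable_const _).indicator hm
    _ = extinctionProb μ A x := by
        rw [integral_indicator_const _ hm, extinctionProb_eq, surv_compl_eq]
        simp

end Pool.Agent.Lib.MP_087ef2_pr
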